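import Pool.Agent.helper9.TH.Spec

/-!
# Row S7b of the Thompson project: the maximal case modulo `U`
-/

namespace Pool.Agent.helper28.TH

open Pool.Agent.helper9.TH

universe u

theorem S7b (hS7a : S7a_stmt.{u}) : S7b_stmt.{u} := by
  intro p G _ _ P U _ hp hSyl hUP hOp hPN hmax
  obtain ⟨K', hK'n, hK'c, k, hk⟩ := hPN
  haveI := hK'n
  haveI : Fact p.Prime := ⟨hp⟩
  have hsurj : Function.Surjective (QuotientGroup.mk' U) := QuotientGroup.mk'_surjective U
  have hker : (QuotientGroup.mk' U).ker = U := QuotientGroup.ker_mk' U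
  have hmem1 : ∀ x : G, QuotientGroup.mk' U x = 1 ↔ x ∈ U := fun x => by
    rw [← MonoidHom.mem_ker, hker]
  set P' : Subgroup (G ⧸ U) := P.map (QuotientGroup.mk' U) with hP'
  have hidx : P'.index = P.index :=
    Subgroup.index_map_eq P hsurj (by rw [hker]; exact hUP)
  have hSyl' : Syl p P' := ⟨hSyl.1.map _, by rw [hidx]; exact hSyl.2⟩
  have hcomapP : P'.comap (QuotientGroup.mk' U) = P := by
    rw [hP', Subgroup.comap_map_eq, hker]
    exact sup_eq_left.2 hUP
  have hmax' : ∀ H : Subgroup (G ⧸ U), P' ≤ H → H ≠ ⊤ → H = P' := by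
    intro H hPH hH
    have h1 : H.comap (QuotientGroup.mk' U) = P := by
      apply hmax
      · exact Subgroup.map_le_iff_le_comap.1 hPH
      · intro h
        apply hH
        rw [← Subgroup.map_comap_eq_self_of_surjective hsurj H, h]
        exact Subgroup.map_top_of_surjective _ hsurj
    rw [← Subgroup.map_comap_eq_self_of_surjective hsurj H, h1]
  have hab : ∀ x ∈ K', ∀ y ∈ K', x * y = y * x :=
    hS7a p (G ⧸ U) P' K' hp hSyl' hmax' hK'n hK'c ⟨k, hk⟩
  have hsup : K' ⊔ P' = ⊤ := by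
    rw [← Subgroup.index_eq_one]
    have h1 : (K' ⊔ P').index ∣ p ^ k := hk ▸ Subgroup.index_dvd_of_le le_sup_left
    have h2 : (K' ⊔ P').index ∣ P'.index := Subgroup.index_dvd_of_le le_sup_right
    have h3 : Nat.Coprime (p ^ k) P'.index :=
      Nat.Coprime.pow_left k ((Nat.Prime.coprime_iff_not_dvd hp).2 hSyl'.2)
    exact Nat.eq_one_of_dvd_coprimes h3 h1 h2
  refine ⟨K'.comap (QuotientGroup.mk' U), hK'n.comap _, ?_, ?_, ?_, ?_⟩
  · intro u hu
    rw [Subgroup.mem_comap, (hmem1 u).2 hu]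
    exact K'.one_mem
  · intro x hx y hy
    rw [← hmem1]
    rw [Subgroup.mem_comap] at hx hy
    rw [map_mul, map_mul, map_mul, map_inv, map_inv, hab _ hx _ hy]
    group
  · have h1 : U.relIndex (K'.comap (QuotientGroup.mk' U)) = Nat.card K' := by
      have h2 : (⊥ : Subgroup (G ⧸ U)).comap (QuotientGroup.mk' U) = U := by
        rw [MonoidHom.comap_bot, hker]
      have h3 : ((⊥ : Subgroup (G ⧸ U)).comap (QuotientGroup.mk' U)).relIndex
          (K'.comap (QuotientGroup.mk' U)) = Nat.card K' := by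
        rw [Subgroup.relIndex_comap, Subgroup.map_comap_eq_self_of_surjective hsurj,
          Subgroup.relIndex_bot_left]
      rwa [h2] at h3
    rw [h1]
    exact hK'c
  · intro g hg hgk
    set C' : Subgroup (G ⧸ U) := Subgroup.centralizer (K' : Set (G ⧸ U)) with hC'
    haveI hC'n : C'.Normal := inferInstance
    have hRn : (P' ⊓ C').Normal := by
      constructor
      intro r hr x
      have hx : x ∈ K' ⊔ P' := by rw [hsup]; exact Subgroup.mem_top x
      obtain ⟨a, ha, q, hq, rfl⟩ := Subgroup.mem_sup_of_normal_left.1 hx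
      have h1 : q * r * q⁻¹ ∈ P' ⊓ C' :=
        ⟨P'.mul_mem (P'.mul_mem hq hr.1) (P'.inv_mem hq), hC'n.conj_mem r hr.2 q⟩
      have h2 : a * (q * r * q⁻¹) = (q * r * q⁻¹) * a :=
        Subgroup.mem_centralizer_iff.1 h1.2 a ha
      have h3 : a * q * r * (a * q)⁻¹ = q * r * q⁻¹ := by
        calc a * q * r * (a * q)⁻¹ = a * (q * r * q⁻¹) * a⁻¹ := by group
          _ = q * r * q⁻¹ := by rw [h2]; group
      rw [h3]
      exact h1
    have hRp : IsPGroup p ((P' ⊓ C').comap (QuotientGroup.mk' U) : Subgroup G) := by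
      refine hSyl.1.to_le ?_
      calc (P' ⊓ C').comap (QuotientGroup.mk' U) ≤ P'.comap (QuotientGroup.mk' U) :=
            Subgroup.comap_mono inf_le_left
        _ = P := hcomapP
    have hle := hOp _ (hRn.comap _) hRp
    apply hle
    rw [Subgroup.mem_comap]
    refine ⟨Subgroup.mem_map_of_mem _ hg, ?_⟩
    show QuotientGroup.mk' U g ∈ C'
    rw [hC', Subgroup.mem_centralizer_iff]
    intro a ha
    obtain ⟨b, rfl⟩ := hsurj a
    have h1 := hgk b (by rw [Subgroup.mem_comap]; exact ha)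
    rw [← hmem1, map_mul, map_mul, map_mul, map_inv, map_inv] at h1
    have h2 : QuotientGroup.mk' U g * QuotientGroup.mk' U b =
        QuotientGroup.mk' U b * QuotientGroup.mk' U g := by
      have h3 := mul_inv_eq_one.1 h1
      exact mul_inv_eq_iff_eq_mul.1 h3
    exact h2.symm

end Pool.Agent.helper28.TH
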